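import Pool.Agent.V1120.LuzinScattered

/-!
# MP_b07c92_gt: Luzin's axiom and compact images of `C_p(K)`

Assume `2^ℵ₀ < 2^ℵ₁`. Then every compact continuous image of `C_p(K)` is metrizable when `K` is a
scattered compact space of countable tightness (Q1 for these spaces) or a left-separated compact
space (Q2).
-/

set_option autoImplicit false

open Set Topology Filter Cardinal

namespace Pool.Agent.Results.MP_b07c92_gt.LuzinAxiom

/-- A space is scattered if every nonempty subset has a relatively isolated point. -/
def Scattered (K : Type) [TopologicalSpace K] : Prop :=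
  ∀ S : Set K, S.Nonempty → ∃ x ∈ S, ∃ U : Set K, IsOpen U ∧ U ∩ S = {x}

/-- A space is left-separated if some well-ordering of it has closed initial segments. -/
def LeftSeparated (K : Type) [TopologicalSpace K] : Prop :=
  ∃ r : K → K → Prop, IsWellOrder K r ∧ ∀ x, IsClosed {y | r y x}

/-- Countable tightness: each point of the closure of `A` is in the closure of a countable subset. -/
def CountablyTight (K : Type) [TopologicalSpace K] : Prop :=
  ∀ (A : Set K) (x : K), x ∈ closure A → ∃ T ⊆ A, T.Countable ∧ x ∈ closure T

/-- Every compact Hausdorff continuous image of `C_p(K)` is metrizable. -/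
def ImagesMetrizable (K : Type) [TopologicalSpace K] : Prop :=
  ∀ (Y : Type) [TopologicalSpace Y] [CompactSpace Y] [T2Space Y]
    (f : {g : K → ℝ // Continuous g} → Y), Continuous f → Function.Surjective f →
      TopologicalSpace.MetrizableSpace Y

/-- Under `2^ℵ₀ < 2^ℵ₁` every compact continuous image of `C_p(K)` is metrizable, for every compact
Hausdorff `K` which is scattered and countably tight, or left-separated. -/
theorem result (hL : (2 : Cardinal.{0}) ^ ℵ₀ < 2 ^ ℵ₁) (K : Type) [TopologicalSpace K]
    [CompactSpace K] [T2Space K] (hK : (Scattered K ∧ CountablyTight K) ∨ LeftSeparated K) :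
    ImagesMetrizable K := by
  have hcl : ∀ A : Set K, #A ≤ ℵ₁ → #(closure A) ≤ 𝔠 := by
    intro A hA
    rcases hK with ⟨h1, h2⟩ | h
    · exact V1120.LuzinSc.closure_le h1 h2 A hA
    · exact Pool.Agent.Helper332.SADSpace.closure_le K h A hA
  intro Y _ _ _ f hf hs
  refine V1120.Luzin.main K (fun A hA => ?_) Y f hf hs
  have : CompactSpace (closure A) := isCompact_iff_compactSpace.1 isClosed_closure.isCompact
  refine (V1120.Luzin.mk_C_le (closure A) (hcl A hA)).trans_lt ?_
  rwa [← two_power_aleph0]

end Pool.Agent.Results.MP_b07c92_gt.LuzinAxiom
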